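import Mathlib
import Pool.Agent.VM.Defs

/-!
# Weyl's exponent for quintic sums: definitions (paper: PAPER_WEYL5.md)

Part III uses the points `(h₁, h₂, d, r)`, part II the points `(h, d, r)`.
-/

set_option autoImplicit false

namespace Pool.Agent.VM5

open Pool.Agent.Helper69_Weyl (ee)
open Pool.Agent.VM (Nr)

/-- the Weyl sum -/
noncomputable def WS (t ξ : ℝ) (N : ℕ) : ℂ :=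
  ∑ n ∈ Finset.Icc (1 : ℤ) (N : ℤ), ee (t * (n : ℝ) ^ 5 + ξ * (n : ℝ))

/-! ## Part II: points `(h, d, r)` -/

/-- `Z = 2 r + h` -/
def Z2 (p : ℕ × ℕ × ℤ) : ℤ := 2 * p.2.2 + (p.1 : ℤ)

/-- `a₄ = 5 h d ^ 4` -/
def m4 (p : ℕ × ℕ × ℤ) : ℤ := 5 * (p.1 : ℤ) * (p.2.1 : ℤ) ^ 4

/-- `a₃ = 10 h d ^ 3 Z` -/
def m3 (p : ℕ × ℕ × ℤ) : ℤ := 10 * (p.1 : ℤ) * (p.2.1 : ℤ) ^ 3 * Z2 p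

/-- `a₂ = 10 h d ^ 2 (3 r ^ 2 + 3 r h + h ^ 2)`, so `2 a₂ = 5 h d ^ 2 (3 Z ^ 2 + h ^ 2)` -/
def m2 (p : ℕ × ℕ × ℤ) : ℤ :=
  10 * (p.1 : ℤ) * (p.2.1 : ℤ) ^ 2 * (3 * p.2.2 ^ 2 + 3 * p.2.2 * (p.1 : ℤ) + (p.1 : ℤ) ^ 2)

/-- `a₁ = 5 h d (2 r + h) (2 r ^ 2 + 2 r h + h ^ 2)` -/
def m1 (p : ℕ × ℕ × ℤ) : ℤ :=
  5 * (p.1 : ℤ) * (p.2.1 : ℤ) * Z2 p * (2 * p.2.2 ^ 2 + 2 * p.2.2 * (p.1 : ℤ) + (p.1 : ℤ) ^ 2)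

/-- the coefficients of `m, m ^ 2, m ^ 3, m ^ 4` in `(r + d m + h) ^ 5 - (r + d m) ^ 5` -/
def co2 (j : Fin 4) (p : ℕ × ℕ × ℤ) : ℤ := (![m1 p, m2 p, m3 p, m4 p] : Fin 4 → ℤ) j

/-- the points of part II -/
noncomputable def P2 (N : ℕ) (S : Finset ℕ) : Finset (ℕ × ℕ × ℤ) :=
  Finset.Icc 1 N ×ˢ S ×ˢ Finset.Icc (-(N : ℤ)) (N : ℤ)

/-- the class `H / 2 < h ≤ H`, `gcd (h, u) = g` -/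
noncomputable def Cls (N H g u : ℕ) (S : Finset ℕ) : Finset (ℕ × ℕ × ℤ) :=
  (P2 N S).filter (fun p => H < 2 * p.1 ∧ p.1 ≤ H ∧ Nat.gcd p.1 u = g)

/-- the same box, part II -/
def Close2 (K : ℕ) (t : ℝ) (v : (ℕ × ℕ × ℤ) × (ℕ × ℕ × ℤ)) : Prop :=
  ∀ j : Fin 4, Nr (t * (co2 j v.1 : ℝ) - t * (co2 j v.2 : ℝ)) (1 / (K : ℝ) ^ ((j : ℕ) + 1))

/-- `max (u, |t - b / u| u N ^ 5)` -/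
noncomputable def WW (N u : ℕ) (t : ℝ) (b : ℤ) : ℝ :=
  max (u : ℝ) (|t - (b : ℝ) / (u : ℝ)| * (u : ℝ) * (N : ℝ) ^ 5)

/-- the hypotheses of part II; `S` is a set of primes in `(D, 2 D]` which do not divide `u` -/
def Par2 (N D K u : ℕ) (t : ℝ) (b : ℤ) (S : Finset ℕ) : Prop :=
  4 * D * K ≤ N ∧ N ≤ 5 * D * K ∧ 10 < D ∧ N ≤ D ^ 2 ∧ N ≤ K ^ 3 ∧ D * N ^ 2 ≤ K ^ 6 ∧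
  D ≤ K ^ 2 ∧ D ≤ u ∧ Int.gcd b (u : ℤ) = 1 ∧ 1000000 * WW N u t b ≤ (K : ℝ) ^ 4 ∧
  WW N u t b ≤ (D : ℝ) * (K : ℝ) ^ 3 ∧
  ∀ d ∈ S, D < d ∧ d ≤ 2 * D ∧ d.Prime ∧ ¬ d ∣ u

/-! ## Part III: points `(h₁, h₂, d, r)` -/

/-- `v = h₁ h₂` -/
def V3 (p : ℕ × ℕ × ℕ × ℤ) : ℤ := (p.1 : ℤ) * (p.2.1 : ℤ)

/-- `w = h₁ ^ 2 + h₂ ^ 2` -/
def W3 (p : ℕ × ℕ × ℕ × ℤ) : ℤ := (p.1 : ℤ) ^ 2 + (p.2.1 : ℤ) ^ 2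

/-- `Z = 2 r + h₁ + h₂` -/
def Z3 (p : ℕ × ℕ × ℕ × ℤ) : ℤ := 2 * p.2.2.2 + (p.1 : ℤ) + (p.2.1 : ℤ)

/-- `20 v d ^ 3` -/
def n3 (p : ℕ × ℕ × ℕ × ℤ) : ℤ := 20 * V3 p * (p.2.2.1 : ℤ) ^ 3

/-- `30 v d ^ 2 Z` -/
def n2 (p : ℕ × ℕ × ℕ × ℤ) : ℤ := 30 * V3 p * (p.2.2.1 : ℤ) ^ 2 * Z3 p

/-- `5 v d (3 Z ^ 2 + w)` -/
def n1 (p : ℕ × ℕ × ℕ × ℤ) : ℤ := 5 * V3 p * (p.2.2.1 : ℤ) * (3 * Z3 p ^ 2 + W3 p)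

/-- the coefficients of `m, m ^ 2, m ^ 3` in the second difference of `x ^ 5` at `r + d m` -/
def co3 (j : Fin 3) (p : ℕ × ℕ × ℕ × ℤ) : ℤ := (![n1 p, n2 p, n3 p] : Fin 3 → ℤ) j

/-- the points of part III -/
noncomputable def P3 (N : ℕ) (S : Finset ℕ) : Finset (ℕ × ℕ × ℕ × ℤ) :=
  Finset.Icc 1 N ×ˢ Finset.Icc 1 N ×ˢ S ×ˢ Finset.Icc (-(N : ℤ)) (N : ℤ)

/-- the good points: `d ∤ Z` -/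
noncomputable def P3g (N : ℕ) (S : Finset ℕ) : Finset (ℕ × ℕ × ℕ × ℤ) :=
  (P3 N S).filter (fun p => ¬ (p.2.2.1 : ℤ) ∣ Z3 p)

/-- the bad points: `d ∣ Z` -/
noncomputable def P3b (N : ℕ) (S : Finset ℕ) : Finset (ℕ × ℕ × ℕ × ℤ) :=
  (P3 N S).filter (fun p => (p.2.2.1 : ℤ) ∣ Z3 p)

/-- the same box, part III -/
def Close3 (K : ℕ) (t : ℝ) (v : (ℕ × ℕ × ℕ × ℤ) × (ℕ × ℕ × ℕ × ℤ)) : Prop :=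
  ∀ j : Fin 3, Nr (t * (co3 j v.1 : ℝ) - t * (co3 j v.2 : ℝ)) (1 / (K : ℝ) ^ ((j : ℕ) + 1))

/-- the hypotheses of part III; `S` is a set of primes in `(D, 2 D]` -/
def Par3 (N D K U : ℕ) (G t : ℝ) (b : ℤ) (S : Finset ℕ) : Prop :=
  4 * D * K ≤ N ∧ N ≤ 5 * D * K ∧ 10 < D ∧ D ^ 8 ≤ N ∧ 5000 * D ≤ K ∧ 1 ≤ G ∧ G ≤ (D : ℝ) ∧
  (N : ℝ) ^ 2 ≤ (U : ℝ) * G ∧ (U : ℝ) ≤ (N : ℝ) ^ 3 * G ∧ 1 ≤ U ∧ Int.gcd b (U : ℤ) = 1 ∧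
  |t - (b : ℝ) / (U : ℝ)| ≤ 1 / (U : ℝ) ^ 2 ∧
  ∀ d ∈ S, D < d ∧ d ≤ 2 * D ∧ d.Prime

end Pool.Agent.VM5
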