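import Mathlib
import Pool.Agent.VM.StmtsW
import Pool.Agent.VM5.Defs

/-!
# Weyl's exponent for quintic sums: the statements of the modules (paper: PAPER_WEYL5.md)
-/

set_option autoImplicit false

namespace Pool.Agent.VM5

open Pool.Agent.Helper69_Weyl (ee)
open Pool.Agent.VM (Nr)

/-! ## General modules -/

/-- LSG: the large sieve inequality for an arbitrary index set -/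
def LsgStmt (l : ℕ) : Prop :=
  ∀ ε : ℝ, 0 < ε → ∃ C : ℝ, 0 < C ∧ ∀ (ι : Type) (e : ι → ℕ × ℤ), Function.Injective e →
    ∀ (K : ℕ), 1 ≤ K → ∀ (P : Finset ι) (θ : ι → Fin l → ℝ) (lo hi : ι → ℕ),
    (∀ p ∈ P, 1 ≤ lo p) → (∀ p ∈ P, hi p ≤ K) →
    (∑ p ∈ P, ‖∑ m ∈ Finset.Icc (lo p) (hi p),
      ee (∑ j, θ p j * (m : ℝ) ^ ((j : ℕ) + 1))‖) ^ (2 * VM.tri l) ≤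
      C * (K : ℝ) ^ (2 * (VM.tri l : ℝ) + ε) * (P.card : ℝ) ^ (2 * VM.tri l - 2) *
        (Nat.card {v : ι × ι // v.1 ∈ P ∧ v.2 ∈ P ∧
          ∀ j : Fin l, Nr (θ v.1 j - θ v.2 j) (1 / (K : ℝ) ^ ((j : ℕ) + 1))} : ℝ)

/-- WD1: one Weyl step -/
def Wd1Stmt : Prop :=
  ∀ (f : ℤ → ℝ) (N : ℕ),
    ‖∑ n ∈ Finset.Icc (1 : ℤ) (N : ℤ), ee (f n)‖ ^ 2 ≤ (N : ℝ) +
      2 * ∑ h ∈ Finset.Icc 1 N, ‖∑ n ∈ Finset.Icc (1 : ℤ) ((N : ℤ) - (h : ℤ)),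
        ee (f (n + (h : ℤ)) - f n)‖

/-- WD2: two Weyl steps -/
def Wd2Stmt : Prop :=
  ∀ (f : ℤ → ℝ) (N : ℕ),
    ‖∑ n ∈ Finset.Icc (1 : ℤ) (N : ℤ), ee (f n)‖ ^ 4 ≤ 10 * (N : ℝ) ^ 3 +
      16 * (N : ℝ) * ∑ h₁ ∈ Finset.Icc 1 N, ∑ h₂ ∈ Finset.Icc 1 N,
        ‖∑ n ∈ Finset.Icc (1 : ℤ) ((N : ℤ) - (h₁ : ℤ) - (h₂ : ℤ)),
          ee (f (n + (h₁ : ℤ) + (h₂ : ℤ)) - f (n + (h₁ : ℤ)) - f (n + (h₂ : ℤ)) + f n)‖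

/-- AV1: one Weyl step, then progressions -/
def Av1Stmt : Prop :=
  ∀ (t ξ : ℝ) (N K : ℕ) (S : Finset ℕ), 1 ≤ K → (∀ d ∈ S, 1 ≤ d ∧ d * K ≤ N) →
    ∃ lo hi : ℕ × ℕ × ℤ → ℕ, (∀ p, 1 ≤ lo p) ∧ (∀ p, hi p ≤ K) ∧
      (S.card : ℝ) * (K : ℝ) * ‖WS t ξ N‖ ^ 2 ≤ (S.card : ℝ) * (K : ℝ) * (N : ℝ) +
        2 * ∑ p ∈ P2 N S, ‖∑ m ∈ Finset.Icc (lo p) (hi p),
          ee (∑ j : Fin 4, t * (co2 j p : ℝ) * (m : ℝ) ^ ((j : ℕ) + 1))‖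

/-- AV2: two Weyl steps, then progressions -/
def Av2Stmt : Prop :=
  ∀ (t ξ : ℝ) (N K : ℕ) (S : Finset ℕ), 1 ≤ K → (∀ d ∈ S, 1 ≤ d ∧ d * K ≤ N) →
    ∃ lo hi : ℕ × ℕ × ℕ × ℤ → ℕ, (∀ p, 1 ≤ lo p) ∧ (∀ p, hi p ≤ K) ∧
      (S.card : ℝ) * (K : ℝ) * ‖WS t ξ N‖ ^ 4 ≤ 10 * (S.card : ℝ) * (K : ℝ) * (N : ℝ) ^ 3 +
        16 * (N : ℝ) * ∑ p ∈ P3 N S, ‖∑ m ∈ Finset.Icc (lo p) (hi p),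
          ee (∑ j : Fin 3, t * (co3 j p : ℝ) * (m : ℝ) ^ ((j : ℕ) + 1))‖

/-- PRU: primes in `(D, 2 D]` which do not divide `u` -/
def PruStmt : Prop :=
  ∀ (A : ℕ) (ε : ℝ), 0 < ε → ∃ D₀ : ℕ, ∀ D u : ℕ, D₀ ≤ D → 1 ≤ u → u < D ^ A →
    (D : ℝ) ^ (1 - ε) ≤
      (((Finset.Ioc D (2 * D)).filter (fun d => d.Prime ∧ ¬ d ∣ u)).card : ℝ)

/-- DVB: the divisor bound, factorizations of a nonzero integer into four factors -/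
def DvbStmt : Prop :=
  ∀ ε : ℝ, 0 < ε → ∃ C : ℝ, 0 < C ∧ ∀ m : ℤ, m ≠ 0 →
    (Nat.card {x : ℤ × ℤ × ℤ × ℤ // x.1 * x.2.1 * x.2.2.1 * x.2.2.2 = m} : ℝ) ≤
      C * |(m : ℝ)| ^ ε

/-- SLP: coprime pairs in a lattice of determinant `M` with slopes in a short interval -/
def SlpStmt : Prop :=
  ∀ (P : Finset (ℕ × ℕ)) (Y M : ℕ) (α ℓ : ℝ), 1 ≤ M → 0 ≤ ℓ →
    (∀ p ∈ P, 1 ≤ p.1 ∧ 1 ≤ p.2 ∧ p.2 ≤ Y ∧ Nat.Coprime p.1 p.2 ∧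
      α ≤ (p.1 : ℝ) / (p.2 : ℝ) ∧ (p.1 : ℝ) / (p.2 : ℝ) ≤ α + ℓ) →
    (∀ p ∈ P, ∀ p' ∈ P, (M : ℤ) ∣ (p.1 : ℤ) * (p'.2 : ℤ) - (p'.1 : ℤ) * (p.2 : ℤ)) →
    (P.card : ℝ) ≤ 1 + ℓ * (Y : ℝ) ^ 2 / (M : ℝ)

/-- CNU: integers with small fractional part, from a rational approximation -/
def CnuStmt : Prop :=
  ∀ (t η : ℝ) (b : ℤ) (U X : ℕ), 1 ≤ U → Int.gcd b (U : ℤ) = 1 →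
    |t - (b : ℝ) / (U : ℝ)| ≤ 1 / (U : ℝ) ^ 2 → 0 ≤ η →
    (Nat.card {m : ℤ // |m| ≤ (X : ℤ) ∧ Nr (t * (m : ℝ)) η} : ℝ) ≤
      16 * ((X : ℝ) / (U : ℝ) + 1) * (η * (U : ℝ) + 1)

/-- CNB: multiples of `A` with small fractional part, close to a rational number -/
def CnbStmt : Prop :=
  ∀ (t η L : ℝ) (b : ℤ) (u A c X : ℕ), 1 ≤ u → Int.gcd b (u : ℤ) = 1 → 1 ≤ A →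
    Nat.gcd A u ≤ c → 0 < η → 0 ≤ L →
    (2 * (X : ℝ) ≤ L ∨ 2 * η ≤ |t - (b : ℝ) / (u : ℝ)| * (A : ℝ) * L) →
    (Nat.card {n : ℤ // |n| ≤ (X : ℤ) ∧ Nr (t * ((A : ℝ) * (n : ℝ))) η} : ℝ) ≤
      (2 * (u : ℝ) * (η + |t - (b : ℝ) / (u : ℝ)| * (A : ℝ) * (X : ℝ)) + 1) *
        (1 + (c : ℝ) * L / (u : ℝ))

/-! ## Part III -/

/-- VCN: the number of `v` -/
def VcnStmt : Prop :=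
  ∃ C : ℝ, 0 < C ∧ ∀ (N D K U : ℕ) (G t : ℝ) (b : ℤ) (S : Finset ℕ), Par3 N D K U G t b S →
    ∀ d ∈ S, ∀ c : ℝ,
      (Nat.card {v : ℤ // 1 ≤ v ∧ v ≤ (N : ℤ) ^ 2 ∧
        Nr (20 * t * (d : ℝ) ^ 3 * (v : ℝ) - c) (1 / (K : ℝ) ^ 3)} : ℝ) ≤ C * (D : ℝ) ^ 3 * G

/-- YPT: the key inequality for `Y = d' Z - d Z'` -/
def YptStmt : Prop :=
  ∀ (N D K U : ℕ) (G t : ℝ) (b : ℤ) (S : Finset ℕ), Par3 N D K U G t b S →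
    ∀ p ∈ P3 N S, ∀ p' ∈ P3 N S, Close3 K t (p, p') →
      Nr (t * ((60 * V3 p' * (p'.2.2.1 : ℤ) ^ 2 *
        ((p'.2.2.1 : ℤ) * Z3 p - (p.2.2.1 : ℤ) * Z3 p') : ℤ) : ℝ))
        (64 * (D : ℝ) / (K : ℝ) ^ 2)

/-- YCN: the number of `(h₁', h₂', d', Y)` with `Y ≠ 0` -/
def YcnStmt : Prop :=
  ∀ ε : ℝ, 0 < ε → ∃ C : ℝ, 0 < C ∧ ∀ (N D K U : ℕ) (G t : ℝ) (b : ℤ) (S : Finset ℕ),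
    Par3 N D K U G t b S →
      (Nat.card {x : ℕ × ℕ × ℕ × ℤ // 1 ≤ x.1 ∧ x.1 ≤ N ∧ 1 ≤ x.2.1 ∧ x.2.1 ≤ N ∧
        x.2.2.1 ∈ S ∧ x.2.2.2 ≠ 0 ∧ |x.2.2.2| ≤ 16 * (D : ℤ) * (N : ℤ) ∧
        Nr (t * ((60 * ((x.1 : ℤ) * (x.2.1 : ℤ)) * (x.2.2.1 : ℤ) ^ 2 * x.2.2.2 : ℤ) : ℝ))
          (64 * (D : ℝ) / (K : ℝ) ^ 2)} : ℝ) ≤ C * (N : ℝ) ^ (1 + ε) * (D : ℝ) ^ 6

/-- EY3: the pairs with `Y ≠ 0` -/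
def Ey3Stmt : Prop :=
  ∀ ε : ℝ, 0 < ε → ∃ C : ℝ, 0 < C ∧ ∀ (N D K U : ℕ) (G t : ℝ) (b : ℤ) (S : Finset ℕ),
    Par3 N D K U G t b S →
      (Nat.card {v : (ℕ × ℕ × ℕ × ℤ) × (ℕ × ℕ × ℕ × ℤ) // v.1 ∈ P3 N S ∧ v.2 ∈ P3 N S ∧
        Close3 K t v ∧ (v.2.2.2.1 : ℤ) * Z3 v.1 ≠ (v.1.2.2.1 : ℤ) * Z3 v.2} : ℝ) ≤
        C * (N : ℝ) ^ (3 + ε) * (D : ℝ) * G

/-- GD3: for good pairs with `Y = 0` the points have the same `d` and the same `Z` -/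
def Gd3Stmt : Prop :=
  ∀ (N D : ℕ) (S : Finset ℕ), 10 < D → (∀ d ∈ S, D < d ∧ d ≤ 2 * D ∧ d.Prime) →
    ∀ p ∈ P3g N S, ∀ p' ∈ P3g N S,
      (p'.2.2.1 : ℤ) * Z3 p = (p.2.2.1 : ℤ) * Z3 p' → p.2.2.1 = p'.2.2.1 ∧ Z3 p = Z3 p'

/-- ALT: the alternative for good pairs with the same `d`, the same `Z` and `v ≠ v'`.
Either `t 20 d ^ 2 n` is very small and `Z` lies in one of two classes modulo `d` which are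
determined by `(d, h₁, h₂, h₁', h₂')`, or `t 20 d n` is very small. -/
def AltStmt : Prop :=
  ∀ (N D K U : ℕ) (G t : ℝ) (b : ℤ) (S : Finset ℕ), Par3 N D K U G t b S →
    ∀ p ∈ P3g N S, ∀ p' ∈ P3g N S, Close3 K t (p, p') → p.2.2.1 = p'.2.2.1 → Z3 p = Z3 p' →
      Nr (t * ((20 * (p.2.2.1 : ℤ) ^ 2 * (V3 p - V3 p') : ℤ) : ℝ))
        (1 / ((D : ℝ) * (K : ℝ) ^ 3)) ∧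
      (Nr (t * ((20 * (p.2.2.1 : ℤ) * (V3 p - V3 p') : ℤ) : ℝ))
          (1 / ((D : ℝ) ^ 2 * (K : ℝ) ^ 3)) ∨
        ∀ q ∈ P3g N S, ∀ q' ∈ P3g N S, Close3 K t (q, q') → q.1 = p.1 → q.2.1 = p.2.1 →
          q.2.2.1 = p.2.2.1 → q'.1 = p'.1 → q'.2.1 = p'.2.1 → q'.2.2.1 = p'.2.2.1 →
          Z3 q = Z3 q' → (p.2.2.1 : ℤ) ∣ Z3 p - Z3 q ∨ (p.2.2.1 : ℤ) ∣ Z3 p + Z3 q)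

/-- DN3: the number of `(d, n)`, `i = 2` and `i = 1` -/
def Dn3Stmt : Prop :=
  ∀ ε : ℝ, 0 < ε → ∃ C : ℝ, 0 < C ∧
    ∀ (N D K U : ℕ) (G t : ℝ) (b : ℤ) (S : Finset ℕ), Par3 N D K U G t b S →
    ∀ i : ℕ, 1 ≤ i → i ≤ 2 →
      (Nat.card {x : ℕ × ℤ // x.1 ∈ S ∧ x.2 ≠ 0 ∧ |x.2| ≤ (N : ℤ) ^ 2 ∧
        Nr (t * ((20 * (x.1 : ℤ) ^ i * x.2 : ℤ) : ℝ))
          (1 / ((D : ℝ) ^ (3 - i) * (K : ℝ) ^ 3))} : ℝ) ≤ C * (N : ℝ) ^ ε * (D : ℝ) ^ i * G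

/-- QD3: the number of `(h₁, h₂, h₁', h₂')` with `h₁ h₂ - h₁' h₂' = n` -/
def Qd3Stmt : Prop :=
  ∀ ε : ℝ, 0 < ε → ∃ C : ℝ, 0 < C ∧ ∀ (N : ℕ) (n : ℤ), 1 ≤ N →
    (Nat.card {x : (ℕ × ℕ) × (ℕ × ℕ) // 1 ≤ x.1.1 ∧ x.1.1 ≤ N ∧ 1 ≤ x.1.2 ∧ x.1.2 ≤ N ∧
      1 ≤ x.2.1 ∧ x.2.1 ≤ N ∧ 1 ≤ x.2.2 ∧ x.2.2 ≤ N ∧
      (x.1.1 : ℤ) * (x.1.2 : ℤ) - (x.2.1 : ℤ) * (x.2.2 : ℤ) = n} : ℝ) ≤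
      C * (N : ℝ) ^ (2 + ε)

/-- EN3: the pairs with the same `d`, the same `Z` and `v ≠ v'` -/
def En3Stmt : Prop :=
  ∀ ε : ℝ, 0 < ε → ∃ C : ℝ, 0 < C ∧ ∀ (N D K U : ℕ) (G t : ℝ) (b : ℤ) (S : Finset ℕ),
    Par3 N D K U G t b S →
      (Nat.card {v : (ℕ × ℕ × ℕ × ℤ) × (ℕ × ℕ × ℕ × ℤ) // v.1 ∈ P3g N S ∧ v.2 ∈ P3g N S ∧
        Close3 K t v ∧ v.1.2.2.1 = v.2.2.2.1 ∧ Z3 v.1 = Z3 v.2 ∧ V3 v.1 ≠ V3 v.2} : ℝ) ≤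
        C * (N : ℝ) ^ (3 + ε) * (D : ℝ) * G

/-- EG3: the energy of the good points -/
def Eg3Stmt : Prop :=
  ∀ ε : ℝ, 0 < ε → ∃ C : ℝ, 0 < C ∧ ∀ (N D K U : ℕ) (G t : ℝ) (b : ℤ) (S : Finset ℕ),
    Par3 N D K U G t b S →
      (Nat.card {v : (ℕ × ℕ × ℕ × ℤ) × (ℕ × ℕ × ℕ × ℤ) // v.1 ∈ P3g N S ∧ v.2 ∈ P3g N S ∧
        Close3 K t v} : ℝ) ≤ C * (N : ℝ) ^ (3 + ε) * (D : ℝ) * G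

/-- EB3: the energy of the bad points -/
def Eb3Stmt : Prop :=
  ∀ ε : ℝ, 0 < ε → ∃ C : ℝ, 0 < C ∧ ∀ (N D K U : ℕ) (G t : ℝ) (b : ℤ) (S : Finset ℕ),
    Par3 N D K U G t b S →
      (Nat.card {v : (ℕ × ℕ × ℕ × ℤ) × (ℕ × ℕ × ℕ × ℤ) // v.1 ∈ P3b N S ∧ v.2 ∈ P3b N S ∧
        Close3 K t v} : ℝ) ≤ C * (N : ℝ) ^ (3 + ε) * (D : ℝ) ^ 4 * G

/-- BL3: the bound of part III -/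
def Bl3Stmt : Prop :=
  ∀ ε : ℝ, 0 < ε → ∃ C : ℝ, 0 < C ∧ ∀ (N D K U : ℕ) (G t ξ : ℝ) (b : ℤ) (S : Finset ℕ),
    Par3 N D K U G t b S → (D : ℝ) ^ (1 - ε) ≤ (S.card : ℝ) →
      ‖WS t ξ N‖ ^ 48 ≤ C * (N : ℝ) ^ (45 + 8 * ε) * G / (D : ℝ)

/-! ## Part II -/

/-- RSM: the number of `(h, ρ)` -/
def RsmStmt : Prop :=
  ∀ ε : ℝ, 0 < ε → ∃ C : ℝ, 0 < C ∧ ∀ (N D K u : ℕ) (t : ℝ) (b : ℤ) (S : Finset ℕ),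
    Par2 N D K u t b S → ∀ d ∈ S,
      (Nat.card {x : ℕ × ℤ // 1 ≤ x.1 ∧ x.1 ≤ N ∧ x.2 ≠ 0 ∧ |x.2| ≤ 6 * (N : ℤ) ∧
        Nr (t * (10 * (x.1 : ℝ) * (d : ℝ) ^ 3 * (x.2 : ℝ))) (2 / (K : ℝ) ^ 3)} : ℝ) ≤
        C * (N : ℝ) ^ (1 + ε) * (1 + (N : ℝ) / (u : ℝ))

/-- SIG: the numerators -/
def SigStmt : Prop :=
  ∃ C : ℝ, 0 < C ∧ ∀ (N D K u : ℕ) (t : ℝ) (b : ℤ) (S : Finset ℕ), Par2 N D K u t b S →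
    ∀ p ∈ P2 N S, ∀ p' ∈ P2 N S, Close2 K t (p, p') →
      ((u : ℤ) ∣ m4 p - m4 p' ∧
        |(t - (b : ℝ) / (u : ℝ)) * ((m4 p : ℝ) - (m4 p' : ℝ))| ≤ 1 / (K : ℝ) ^ 4) ∧
      (∃ σ : ℤ, (u : ℤ) ∣ b * (m3 p - m3 p') - σ ∧
        |(σ : ℝ)| ≤ C * WW N u t b / (K : ℝ) ^ 3 ∧
        |(t - (b : ℝ) / (u : ℝ)) * ((m3 p : ℝ) - (m3 p' : ℝ)) + (σ : ℝ) / (u : ℝ)| ≤
          1 / (K : ℝ) ^ 3) ∧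
      (∃ σ : ℤ, (u : ℤ) ∣ b * (2 * m2 p - 2 * m2 p') - σ ∧
        |(σ : ℝ)| ≤ C * WW N u t b / (K : ℝ) ^ 2)

/-- EBC: the pairs with `d = d'` -/
def EbcStmt : Prop :=
  ∀ ε : ℝ, 0 < ε → ∃ C : ℝ, 0 < C ∧ ∀ (N D K u : ℕ) (t : ℝ) (b : ℤ) (S : Finset ℕ),
    Par2 N D K u t b S →
      (Nat.card {v : (ℕ × ℕ × ℤ) × (ℕ × ℕ × ℤ) // v.1 ∈ P2 N S ∧ v.2 ∈ P2 N S ∧
        Close2 K t v ∧ v.1.2.1 = v.2.2.1} : ℝ) ≤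
        C * (N : ℝ) ^ (2 + ε) * (D : ℝ) * (1 + (N : ℝ) / (u : ℝ)) ^ 2

/-- ZZC: the number of `(r, r')` for given `(h, h', d, d')`, `d ≠ d'` -/
def ZzcStmt : Prop :=
  ∃ C : ℝ, 0 < C ∧ ∀ (N D K u H g : ℕ) (t : ℝ) (b : ℤ) (S : Finset ℕ), Par2 N D K u t b S →
    1 ≤ g → g ≤ H → H ≤ N → ∀ (h h' d d' : ℕ), 1 ≤ h → h ≤ H → H < 2 * h' → h' ≤ H →
    Nat.gcd h' u = g → d ∈ S → d' ∈ S → d ≠ d' →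
      (Nat.card {v : ℤ × ℤ // |v.1| ≤ (N : ℤ) ∧ |v.2| ≤ (N : ℤ) ∧
        Close2 K t ((h, d, v.1), (h', d', v.2))} : ℝ) ≤
        C * (1 + WW N u t b / (K : ℝ) ^ 3) *
          (1 + ((g : ℝ) * (N : ℝ) / (H : ℝ)) * (D : ℝ) * (N : ℝ) / WW N u t b) *
          ((N : ℝ) / (D : ℝ))

/-- QEE: the number of `(x, x', d, d')` for a given common divisor `e` of `h = e x`, `h' = e x'` -/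
def QeeStmt : Prop :=
  ∀ ε : ℝ, 0 < ε → ∃ C : ℝ, 0 < C ∧ ∀ (N D K u H g e : ℕ) (t : ℝ) (b : ℤ) (S : Finset ℕ),
    Par2 N D K u t b S → 1 ≤ g → g ≤ H → H ≤ N → 1 ≤ e → e ≤ H →
      (Nat.card {x : (ℕ × ℕ) × (ℕ × ℕ) // H < 2 * (e * x.1.1) ∧ e * x.1.1 ≤ H ∧
        H < 2 * (e * x.1.2) ∧ e * x.1.2 ≤ H ∧ Nat.Coprime x.1.1 x.1.2 ∧
        Nat.gcd (e * x.1.1) u = g ∧ Nat.gcd (e * x.1.2) u = g ∧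
        x.2.1 ∈ S ∧ x.2.2 ∈ S ∧ x.2.1 ≠ x.2.2 ∧
        (u : ℤ) ∣ 5 * ((e : ℤ) * ((x.1.1 : ℤ) * (x.2.1 : ℤ) ^ 4 - (x.1.2 : ℤ) * (x.2.2 : ℤ) ^ 4)) ∧
        |t - (b : ℝ) / (u : ℝ)| * (5 * ((e : ℝ) * |(x.1.1 : ℝ) * (x.2.1 : ℝ) ^ 4 -
          (x.1.2 : ℝ) * (x.2.2 : ℝ) ^ 4|)) ≤ 1 / (K : ℝ) ^ 4} : ℝ) ≤
        C * (N : ℝ) ^ ε * (((g : ℝ) * (N : ℝ) / (H : ℝ)) * (D : ℝ) ^ 2 *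
          ((H : ℝ) / (e : ℝ)) ^ 2 / WW N u t b + min ((D : ℝ) ^ 2) (((H : ℝ) / (e : ℝ)) ^ 2))

/-- QCN: the number of `(h, h', d, d')` -/
def QcnStmt : Prop :=
  ∀ ε : ℝ, 0 < ε → ∃ C : ℝ, 0 < C ∧ ∀ (N D K u H g : ℕ) (t : ℝ) (b : ℤ) (S : Finset ℕ),
    Par2 N D K u t b S → 1 ≤ g → g ≤ H → H ≤ N →
      (Nat.card {x : (ℕ × ℕ) × (ℕ × ℕ) // H < 2 * x.1.1 ∧ x.1.1 ≤ H ∧ H < 2 * x.1.2 ∧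
        x.1.2 ≤ H ∧ Nat.gcd x.1.1 u = g ∧ Nat.gcd x.1.2 u = g ∧
        x.2.1 ∈ S ∧ x.2.2 ∈ S ∧ x.2.1 ≠ x.2.2 ∧
        (u : ℤ) ∣ 5 * ((x.1.1 : ℤ) * (x.2.1 : ℤ) ^ 4 - (x.1.2 : ℤ) * (x.2.2 : ℤ) ^ 4) ∧
        |t - (b : ℝ) / (u : ℝ)| * (5 * |(x.1.1 : ℝ) * (x.2.1 : ℝ) ^ 4 -
          (x.1.2 : ℝ) * (x.2.2 : ℝ) ^ 4|) ≤ 1 / (K : ℝ) ^ 4} : ℝ) ≤
        C * (N : ℝ) ^ ε * (((g : ℝ) * (N : ℝ) / (H : ℝ)) * (D : ℝ) ^ 2 * (N : ℝ) ^ 2 /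
          WW N u t b + (N : ℝ) * (D : ℝ))

/-- CUB: the number of `h` with `gcd (h, u) = g` and `κ h ^ 3` in a given set of residues -/
def CubStmt : Prop :=
  ∀ ε : ℝ, 0 < ε → ∃ C : ℝ, 0 < C ∧ ∀ (N u g : ℕ) (κ c : ℤ) (s₀ : ℝ), 1 ≤ N → 1 ≤ u →
    u ≤ N ^ 4 → 1 ≤ g → Int.gcd c (u : ℤ) = 1 → 0 ≤ s₀ →
      (Nat.card {h : ℕ // 1 ≤ h ∧ h ≤ N ∧ Nat.gcd h u = g ∧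
        ∃ σ : ℤ, |(σ : ℝ)| ≤ s₀ ∧ (u : ℤ) ∣ κ * (h : ℤ) ^ 3 - σ * c} : ℝ) ≤
        C * (N : ℝ) ^ ε * (g : ℝ) ^ 2 * (1 + (N : ℝ) / (u : ℝ)) *
          (s₀ + 1 + (Int.gcd κ (u : ℤ) : ℝ))

/-- GSM: the sum of the greatest common divisors -/
def GsmStmt : Prop :=
  ∀ ε : ℝ, 0 < ε → ∃ C : ℝ, 0 < C ∧ ∀ (D u : ℕ) (S : Finset ℕ), 10 < D → 1 ≤ u → D ≤ u →
    (∀ d ∈ S, D < d ∧ d ≤ 2 * D ∧ d.Prime ∧ ¬ d ∣ u) →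
      ∑ x ∈ (S ×ˢ S).filter (fun x => x.1 ≠ x.2),
        ((Int.gcd (10 * ((x.2 : ℤ) ^ 10 - (x.1 : ℤ) ^ 10)) (u : ℤ) : ℕ) : ℝ) ≤
        C * (u : ℝ) ^ ε * ((u : ℝ) + (D : ℝ) ^ 2)

/-- STR: the congruence `(**)` when `c₁ W < K ^ 3`; `C` is the constant of SIG -/
def StrStmt : Prop :=
  ∃ C : ℝ, 0 < C ∧ ∀ (N D K u : ℕ) (t : ℝ) (b : ℤ) (S : Finset ℕ), Par2 N D K u t b S →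
    C * WW N u t b < (K : ℝ) ^ 3 →
    ∀ p ∈ P2 N S, ∀ p' ∈ P2 N S, Close2 K t (p, p') →
      ∃ σ : ℤ, |(σ : ℝ)| ≤ C * WW N u t b / (K : ℝ) ^ 2 ∧
        (u : ℤ) ∣ (10 * b * (p.2.1 : ℤ) ^ 2 * ((p'.2.1 : ℤ) ^ 10 - (p.2.1 : ℤ) ^ 10)) *
          (p.1 : ℤ) ^ 3 - σ * (p'.2.1 : ℤ) ^ 10

/-- HCN: the number of `(h, h', d, d')` in the case `c₁ W < K ^ 3` -/
def HcnStmt : Prop :=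
  ∃ C₁ : ℝ, 0 < C₁ ∧ ∀ ε : ℝ, 0 < ε → ∃ C : ℝ, 0 < C ∧
    ∀ (N D K u H g : ℕ) (t : ℝ) (b : ℤ) (S : Finset ℕ), Par2 N D K u t b S →
    C₁ * WW N u t b < (K : ℝ) ^ 3 → 1 ≤ g → g ≤ H → H ≤ N →
      (Nat.card {x : (ℕ × ℕ) × (ℕ × ℕ) // H < 2 * x.1.1 ∧ x.1.1 ≤ H ∧ H < 2 * x.1.2 ∧
        x.1.2 ≤ H ∧ Nat.gcd x.1.1 u = g ∧ Nat.gcd x.1.2 u = g ∧
        x.2.1 ∈ S ∧ x.2.2 ∈ S ∧ x.2.1 ≠ x.2.2 ∧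
        ∃ r r' : ℤ, |r| ≤ (N : ℤ) ∧ |r'| ≤ (N : ℤ) ∧
          Close2 K t ((x.1.1, x.2.1, r), (x.1.2, x.2.2, r'))} : ℝ) ≤
        C * (N : ℝ) ^ ε * (g : ℝ) ^ 2 * (1 + (N : ℝ) / (u : ℝ)) ^ 2 *
          ((D : ℝ) ^ 2 * WW N u t b / (K : ℝ) ^ 2 + (D : ℝ) ^ 2 + (u : ℝ))

/-- EA2: the pairs of a class with `d ≠ d'` -/
def Ea2Stmt : Prop :=
  ∀ ε : ℝ, 0 < ε → ∃ C : ℝ, 0 < C ∧ ∀ (N D K u H g : ℕ) (t : ℝ) (b : ℤ) (S : Finset ℕ),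
    Par2 N D K u t b S → 1 ≤ g → g ≤ H → H ≤ N →
      (Nat.card {v : (ℕ × ℕ × ℤ) × (ℕ × ℕ × ℤ) // v.1 ∈ Cls N H g u S ∧
        v.2 ∈ Cls N H g u S ∧ Close2 K t v ∧ v.1.2.1 ≠ v.2.2.1} : ℝ) ≤
        C * (N : ℝ) ^ (2 + ε) * (D : ℝ) * ((g : ℝ) * (N : ℝ) / (H : ℝ)) ^ 3 *
          (1 + (N : ℝ) / (u : ℝ)) ^ 2

/-- ECL: the energy of a class -/
def EclStmt : Prop :=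
  ∀ ε : ℝ, 0 < ε → ∃ C : ℝ, 0 < C ∧ ∀ (N D K u H g : ℕ) (t : ℝ) (b : ℤ) (S : Finset ℕ),
    Par2 N D K u t b S → 1 ≤ g → g ≤ H → H ≤ N →
      (Nat.card {v : (ℕ × ℕ × ℤ) × (ℕ × ℕ × ℤ) // v.1 ∈ Cls N H g u S ∧
        v.2 ∈ Cls N H g u S ∧ Close2 K t v} : ℝ) ≤
        C * (N : ℝ) ^ (2 + ε) * (D : ℝ) * ((g : ℝ) * (N : ℝ) / (H : ℝ)) ^ 3 *
          (1 + (N : ℝ) / (u : ℝ)) ^ 2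

/-- BCL: the sum over one class -/
def BclStmt : Prop :=
  ∀ ε : ℝ, 0 < ε → ∃ C : ℝ, 0 < C ∧ ∀ (N D K u H g : ℕ) (t : ℝ) (b : ℤ) (S : Finset ℕ)
    (lo hi : ℕ × ℕ × ℤ → ℕ), (∀ p, 1 ≤ lo p) → (∀ p, hi p ≤ K) →
    Par2 N D K u t b S → 1 ≤ g → g ≤ H → H ≤ N →
      (∑ p ∈ Cls N H g u S, ‖∑ m ∈ Finset.Icc (lo p) (hi p),
        ee (∑ j : Fin 4, t * (co2 j p : ℝ) * (m : ℝ) ^ ((j : ℕ) + 1))‖) ^ 20 ≤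
        C * (K : ℝ) ^ 20 * (N : ℝ) ^ (38 + ε) * (S.card : ℝ) ^ 18 * (D : ℝ) *
          (1 + (N : ℝ) / (u : ℝ)) ^ 2

/-- BL2: the bound of part II -/
def Bl2Stmt : Prop :=
  ∀ ε : ℝ, 0 < ε → ∃ C : ℝ, 0 < C ∧ ∀ (N D K u : ℕ) (t ξ : ℝ) (b : ℤ) (S : Finset ℕ),
    Par2 N D K u t b S → (D : ℝ) ^ (1 - ε) ≤ (S.card : ℝ) →
      ‖WS t ξ N‖ ^ 40 ≤ C * (N : ℝ) ^ (38 + 4 * ε) * (1 + (N : ℝ) / (u : ℝ)) ^ 2 / (D : ℝ)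

/-! ## Assembly -/

/-- NU3: the parameters of part III -/
def Nu3Stmt : Prop :=
  ∃ N₀ : ℕ, ∀ N : ℕ, N₀ ≤ N → ∃ D K : ℕ, 4 * D * K ≤ N ∧ N ≤ 5 * D * K ∧ 10 < D ∧
    D ^ 8 ≤ N ∧ 5000 * D ≤ K ∧ (N : ℝ) ^ ((83 : ℝ) / 1000) ≤ (D : ℝ) ∧
    (N : ℝ) ^ ((119 : ℝ) / 1000) ≤ (D : ℝ)

/-- NU2: the parameters of part II -/
def Nu2Stmt : Prop :=
  ∃ N₀ : ℕ, ∀ N : ℕ, N₀ ≤ N → ∃ D K : ℕ, 4 * D * K ≤ N ∧ N ≤ 5 * D * K ∧ 10 < D ∧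
    N ≤ D ^ 2 ∧ N ≤ K ^ 3 ∧ D * N ^ 2 ≤ K ^ 6 ∧ D ≤ K ^ 2 ∧
    (D : ℝ) ≤ (N : ℝ) ^ ((99 : ℝ) / 100) / 4 ∧
    (N : ℝ) ^ ((5205 : ℝ) / 10000) ≤ (D : ℝ) ∧
    2000000 * (N : ℝ) ^ ((1917 : ℝ) / 1000) ≤ (K : ℝ) ^ 4 ∧
    2 * (N : ℝ) ^ ((1917 : ℝ) / 1000) ≤ (D : ℝ) * (K : ℝ) ^ 3

/-- MT5: the main proposition -/
def Mt5Stmt : Prop :=
  ∃ C : ℝ, 0 < C ∧ ∀ (N q : ℕ) (a : ℤ) (t ξ : ℝ), 1 ≤ N → 1 ≤ q → Int.gcd a (q : ℤ) = 1 →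
    |t - (a : ℝ) / (q : ℝ)| ≤ 1 / (q : ℝ) ^ 2 → (N : ℝ) ^ ((992 : ℝ) / 1000) ≤ (q : ℝ) →
    (q : ℝ) ≤ (N : ℝ) ^ ((11 : ℝ) / 10) →
      ‖WS t ξ N‖ ^ 40 ≤ C * (N : ℝ) ^ ((3748 : ℝ) / 100) * (1 + (N : ℝ) / (q : ℝ)) ^ 2

/-- WEY: Weyl's inequality -/
def WeyStmt : Prop :=
  ∀ ε : ℝ, 0 < ε → ∃ C : ℝ, 0 < C ∧ ∀ (N u : ℕ) (b : ℤ) (t ξ : ℝ), 1 ≤ N → N ≤ u →
    u ≤ N ^ 4 → Int.gcd b (u : ℤ) = 1 → |t - (b : ℝ) / (u : ℝ)| ≤ 1 / (u : ℝ) ^ 2 →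
      ‖WS t ξ N‖ ≤ C * (N : ℝ) ^ ((15 : ℝ) / 16 + ε)

/-- BLK: blocks of length `u` -/
def Blk5Stmt : Prop :=
  ∃ C : ℝ, 0 < C ∧ ∀ (N u : ℕ) (b : ℤ) (t ξ M : ℝ), 1 ≤ u → u ≤ N → 0 ≤ M →
    |t - (b : ℝ) / (u : ℝ)| ≤ 1 / ((u : ℝ) * (N : ℝ) ^ 4) →
    (∀ L : ℕ, L ≤ u → ‖WS ((b : ℝ) / (u : ℝ)) ξ L‖ ≤ M) →
      ‖WS t ξ N‖ ≤ C * ((N : ℝ) / (u : ℝ)) * M

/-- FN5: the final theorem -/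
def Fn5Stmt : Prop :=
  ∃ C : ℝ, 0 < C ∧ ∀ (N q : ℕ) (a : ℤ) (t ξ : ℝ), 1 ≤ q → q ≤ N → Int.gcd a (q : ℤ) = 1 →
    |t - (a : ℝ) / (q : ℝ)| ≤ 1 / (q : ℝ) ^ 2 →
      ‖WS t ξ N‖ ≤ C * (N : ℝ) * (1 / (q : ℝ)) ^ ((63 : ℝ) / 1000)

end Pool.Agent.VM5
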