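import Mathlib
import Pool.Agent.VM5.Stmts
import Pool.Agent.VM.StmtsH
import Pool.Agent.Helper7_VM.Stmts

/-!
# Quintic Weyl sums for all `t`: statements of the modules (paper: PAPER_WEYL5B.md)

`Par2w` is `Par2` without the hypothesis `D ≤ u` and with the hypothesis `N ≤ 4 W`.
-/

set_option autoImplicit false

namespace Pool.Agent.VM5

open Pool.Agent.Helper69_Weyl (ee W)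
open Pool.Agent.VM (Nr)

/-- the hypotheses of part II, second version -/
def Par2w (N D K u : ℕ) (t : ℝ) (b : ℤ) (S : Finset ℕ) : Prop :=
  4 * D * K ≤ N ∧ N ≤ 5 * D * K ∧ 10 < D ∧ N ≤ D ^ 2 ∧ N ≤ K ^ 3 ∧ D * N ^ 2 ≤ K ^ 6 ∧
  D ≤ K ^ 2 ∧ 1 ≤ u ∧ Int.gcd b (u : ℤ) = 1 ∧ 1000000 * WW N u t b ≤ (K : ℝ) ^ 4 ∧
  WW N u t b ≤ (D : ℝ) * (K : ℝ) ^ 3 ∧ (N : ℝ) ≤ 4 * WW N u t b ∧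
  ∀ d ∈ S, D < d ∧ d ≤ 2 * D ∧ d.Prime ∧ ¬ d ∣ u

/-- SGw: the numerators -/
def SgwStmt : Prop :=
  ∃ C : ℝ, 0 < C ∧ ∀ (N D K u : ℕ) (t : ℝ) (b : ℤ) (S : Finset ℕ), Par2w N D K u t b S →
    ∀ p ∈ P2 N S, ∀ p' ∈ P2 N S, Close2 K t (p, p') →
      ((u : ℤ) ∣ m4 p - m4 p' ∧
        |(t - (b : ℝ) / (u : ℝ)) * ((m4 p : ℝ) - (m4 p' : ℝ))| ≤ 1 / (K : ℝ) ^ 4) ∧
      (∃ σ : ℤ, (u : ℤ) ∣ b * (m3 p - m3 p') - σ ∧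
        |(σ : ℝ)| ≤ C * WW N u t b / (K : ℝ) ^ 3 ∧
        |(t - (b : ℝ) / (u : ℝ)) * ((m3 p : ℝ) - (m3 p' : ℝ)) + (σ : ℝ) / (u : ℝ)| ≤
          1 / (K : ℝ) ^ 3) ∧
      (∃ σ : ℤ, (u : ℤ) ∣ b * (2 * m2 p - 2 * m2 p') - σ ∧
        |(σ : ℝ)| ≤ C * WW N u t b / (K : ℝ) ^ 2 ∧
        |(t - (b : ℝ) / (u : ℝ)) * (2 * (m2 p : ℝ) - 2 * (m2 p' : ℝ)) + (σ : ℝ) / (u : ℝ)| ≤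
          2 / (K : ℝ) ^ 2)

/-- RSw: the number of `(h, ρ)` -/
def RswStmt : Prop :=
  ∀ ε : ℝ, 0 < ε → ∃ C : ℝ, 0 < C ∧ ∀ (N D K u : ℕ) (t : ℝ) (b : ℤ) (S : Finset ℕ),
    Par2w N D K u t b S → ∀ d ∈ S,
      (Nat.card {x : ℕ × ℤ // 1 ≤ x.1 ∧ x.1 ≤ N ∧ x.2 ≠ 0 ∧ |x.2| ≤ 6 * (N : ℤ) ∧
        Nr (t * (10 * (x.1 : ℝ) * (d : ℝ) ^ 3 * (x.2 : ℝ))) (2 / (K : ℝ) ^ 3)} : ℝ) ≤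
        C * (N : ℝ) ^ (1 + ε)

/-- EBw: the pairs with `d = d'` -/
def EbwStmt : Prop :=
  ∀ ε : ℝ, 0 < ε → ∃ C : ℝ, 0 < C ∧ ∀ (N D K u : ℕ) (t : ℝ) (b : ℤ) (S : Finset ℕ),
    Par2w N D K u t b S →
      (Nat.card {v : (ℕ × ℕ × ℤ) × (ℕ × ℕ × ℤ) // v.1 ∈ P2 N S ∧ v.2 ∈ P2 N S ∧
        Close2 K t v ∧ v.1.2.1 = v.2.2.1} : ℝ) ≤
        C * (N : ℝ) ^ (2 + ε) * (D : ℝ)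

/-- ZZw: the number of `(r, r')` for given `(h, h', d, d')`, `d ≠ d'` -/
def ZzwStmt : Prop :=
  ∃ C : ℝ, 0 < C ∧ ∀ (N D K u H g : ℕ) (t : ℝ) (b : ℤ) (S : Finset ℕ), Par2w N D K u t b S →
    1 ≤ g → g ≤ H → H ≤ N → ∀ (h h' d d' : ℕ), 1 ≤ h → h ≤ H → H < 2 * h' → h' ≤ H →
    Nat.gcd h' u = g → d ∈ S → d' ∈ S → d ≠ d' →
      (Nat.card {v : ℤ × ℤ // |v.1| ≤ (N : ℤ) ∧ |v.2| ≤ (N : ℤ) ∧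
        Close2 K t ((h, d, v.1), (h', d', v.2))} : ℝ) ≤
        C * (1 + WW N u t b / (K : ℝ) ^ 3) *
          (1 + ((g : ℝ) * (N : ℝ) / (H : ℝ)) * (D : ℝ) * (N : ℝ) / WW N u t b) *
          ((N : ℝ) / (D : ℝ))

/-- QEw: the number of `(x, x', d, d')` for a given common divisor `e` -/
def QewStmt : Prop :=
  ∀ ε : ℝ, 0 < ε → ∃ C : ℝ, 0 < C ∧ ∀ (N D K u H g e : ℕ) (t : ℝ) (b : ℤ) (S : Finset ℕ),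
    Par2w N D K u t b S → 1 ≤ g → g ≤ H → H ≤ N → 1 ≤ e → e ≤ H →
      (Nat.card {x : (ℕ × ℕ) × (ℕ × ℕ) // H < 2 * (e * x.1.1) ∧ e * x.1.1 ≤ H ∧
        H < 2 * (e * x.1.2) ∧ e * x.1.2 ≤ H ∧ Nat.Coprime x.1.1 x.1.2 ∧
        Nat.gcd (e * x.1.1) u = g ∧ Nat.gcd (e * x.1.2) u = g ∧
        x.2.1 ∈ S ∧ x.2.2 ∈ S ∧ x.2.1 ≠ x.2.2 ∧
        (u : ℤ) ∣ 5 * ((e : ℤ) * ((x.1.1 : ℤ) * (x.2.1 : ℤ) ^ 4 - (x.1.2 : ℤ) * (x.2.2 : ℤ) ^ 4)) ∧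
        |t - (b : ℝ) / (u : ℝ)| * (5 * ((e : ℝ) * |(x.1.1 : ℝ) * (x.2.1 : ℝ) ^ 4 -
          (x.1.2 : ℝ) * (x.2.2 : ℝ) ^ 4|)) ≤ 1 / (K : ℝ) ^ 4} : ℝ) ≤
        C * (N : ℝ) ^ ε * (((g : ℝ) * (N : ℝ) / (H : ℝ)) * (D : ℝ) ^ 2 *
          ((H : ℝ) / (e : ℝ)) ^ 2 / WW N u t b + min ((D : ℝ) ^ 2) (((H : ℝ) / (e : ℝ)) ^ 2))

/-- QCw: the number of `(h, h', d, d')` -/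
def QcwStmt : Prop :=
  ∀ ε : ℝ, 0 < ε → ∃ C : ℝ, 0 < C ∧ ∀ (N D K u H g : ℕ) (t : ℝ) (b : ℤ) (S : Finset ℕ),
    Par2w N D K u t b S → 1 ≤ g → g ≤ H → H ≤ N →
      (Nat.card {x : (ℕ × ℕ) × (ℕ × ℕ) // H < 2 * x.1.1 ∧ x.1.1 ≤ H ∧ H < 2 * x.1.2 ∧
        x.1.2 ≤ H ∧ Nat.gcd x.1.1 u = g ∧ Nat.gcd x.1.2 u = g ∧
        x.2.1 ∈ S ∧ x.2.2 ∈ S ∧ x.2.1 ≠ x.2.2 ∧
        (u : ℤ) ∣ 5 * ((x.1.1 : ℤ) * (x.2.1 : ℤ) ^ 4 - (x.1.2 : ℤ) * (x.2.2 : ℤ) ^ 4) ∧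
        |t - (b : ℝ) / (u : ℝ)| * (5 * |(x.1.1 : ℝ) * (x.2.1 : ℝ) ^ 4 -
          (x.1.2 : ℝ) * (x.2.2 : ℝ) ^ 4|) ≤ 1 / (K : ℝ) ^ 4} : ℝ) ≤
        C * (N : ℝ) ^ ε * (((g : ℝ) * (N : ℝ) / (H : ℝ)) * (D : ℝ) ^ 2 * (N : ℝ) ^ 2 /
          WW N u t b + (N : ℝ) * (D : ℝ))

/-- STw: the congruence and the inequality for `h` when `c₁ W < K ^ 3` -/
def StwStmt : Prop :=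
  ∃ C : ℝ, 0 < C ∧ ∀ (N D K u : ℕ) (t : ℝ) (b : ℤ) (S : Finset ℕ), Par2w N D K u t b S →
    C * WW N u t b < (K : ℝ) ^ 3 →
    ∀ p ∈ P2 N S, ∀ p' ∈ P2 N S, Close2 K t (p, p') →
      ∃ σ : ℤ, |(σ : ℝ) / (u : ℝ) + (t - (b : ℝ) / (u : ℝ)) *
          (10 * (p.2.1 : ℝ) ^ 2 * ((p'.2.1 : ℝ) ^ 10 - (p.2.1 : ℝ) ^ 10) /
            (p'.2.1 : ℝ) ^ 10) * (p.1 : ℝ) ^ 3| ≤ C / (K : ℝ) ^ 2 ∧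
        (u : ℤ) ∣ (10 * b * (p.2.1 : ℤ) ^ 2 * ((p'.2.1 : ℤ) ^ 10 - (p.2.1 : ℤ) ^ 10)) *
          (p.1 : ℤ) ^ 3 - σ * (p'.2.1 : ℤ) ^ 10

/-- CUw: the number of `h` in `(H / 2, H]` with `gcd (h, u) = g`, `κ h ^ 3` in a given set of
residues and `ρ h ^ 3` close to the corresponding numbers -/
def CuwStmt : Prop :=
  ∀ ε : ℝ, 0 < ε → ∃ C : ℝ, 0 < C ∧ ∀ (H u g : ℕ) (κ c : ℤ) (ρ η : ℝ), 1 ≤ H → 1 ≤ u →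
    1 ≤ g → Int.gcd c (u : ℤ) = 1 → ρ ≠ 0 → 0 ≤ η →
      (Nat.card {h : ℕ // H < 2 * h ∧ h ≤ H ∧ Nat.gcd h u = g ∧
        ∃ σ : ℤ, |(σ : ℝ) / (u : ℝ) + ρ * (h : ℝ) ^ 3| ≤ η ∧
          (u : ℤ) ∣ κ * (h : ℤ) ^ 3 - σ * c} : ℝ) ≤
        C * (u : ℝ) ^ ε *
          (1 + (u : ℝ) * (|ρ| * (H : ℝ) ^ 3 + η) / (Int.gcd κ (u : ℤ) : ℝ)) *
          (1 + (Int.gcd κ (u : ℤ) : ℝ) * (g : ℝ) ^ 2 * η / ((u : ℝ) * |ρ| * (H : ℝ) ^ 2))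

/-- GS2: the weighted sum of the greatest common divisors -/
def Gs2Stmt : Prop :=
  ∀ ε : ℝ, 0 < ε → ∃ C : ℝ, 0 < C ∧ ∀ (D u : ℕ) (S : Finset ℕ), 10 < D → 1 ≤ u →
    (∀ d ∈ S, D < d ∧ d ≤ 2 * D ∧ d.Prime ∧ ¬ d ∣ u) →
      ∑ x ∈ (S ×ˢ S).filter (fun x => x.1 ≠ x.2),
        ((Int.gcd (10 * ((x.2 : ℤ) ^ 10 - (x.1 : ℤ) ^ 10)) (u : ℤ) : ℕ) : ℝ) /
          |(x.2 : ℝ) - (x.1 : ℝ)| ≤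
        C * ((u : ℝ) * (D : ℝ)) ^ ε * ((u : ℝ) + (D : ℝ))

/-- HTw: the number of `(h, d, d')` in the case `c₁ W < K ^ 3`, `u < |t - b / u| u N ^ 5` -/
def HtwStmt : Prop :=
  ∀ C₀ : ℝ, 0 < C₀ → ∀ ε : ℝ, 0 < ε → ∃ C : ℝ, 0 < C ∧
    ∀ (N D K u H g : ℕ) (t : ℝ) (b : ℤ) (S : Finset ℕ), Par2w N D K u t b S →
    (u : ℝ) < |t - (b : ℝ) / (u : ℝ)| * (u : ℝ) * (N : ℝ) ^ 5 → 1 ≤ g → g ≤ H → H ≤ N →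
      (Nat.card {x : ℕ × (ℕ × ℕ) // H < 2 * x.1 ∧ x.1 ≤ H ∧ Nat.gcd x.1 u = g ∧
        x.2.1 ∈ S ∧ x.2.2 ∈ S ∧ x.2.1 ≠ x.2.2 ∧
        ∃ σ : ℤ, |(σ : ℝ) / (u : ℝ) + (t - (b : ℝ) / (u : ℝ)) *
            (10 * (x.2.1 : ℝ) ^ 2 * ((x.2.2 : ℝ) ^ 10 - (x.2.1 : ℝ) ^ 10) /
              (x.2.2 : ℝ) ^ 10) * (x.1 : ℝ) ^ 3| ≤ C₀ / (K : ℝ) ^ 2 ∧
          (u : ℤ) ∣ (10 * b * (x.2.1 : ℤ) ^ 2 * ((x.2.2 : ℤ) ^ 10 - (x.2.1 : ℤ) ^ 10)) *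
            (x.1 : ℤ) ^ 3 - σ * (x.2.2 : ℤ) ^ 10} : ℝ) ≤
        C * (N : ℝ) ^ ε * ((g : ℝ) * (N : ℝ) / (H : ℝ)) ^ 2 * (WW N u t b * (D : ℝ))

/-- HPw: the number of `h'` for given `(h, d, d')` -/
def HpwStmt : Prop :=
  ∃ C : ℝ, 0 < C ∧ ∀ (N D K u : ℕ) (t : ℝ) (b : ℤ) (S : Finset ℕ), Par2w N D K u t b S →
    ∀ (h d d' : ℕ), 1 ≤ h → h ≤ N → d ∈ S → d' ∈ S →
      (Nat.card {h' : ℕ // 1 ≤ h' ∧ h' ≤ N ∧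
        (u : ℤ) ∣ 5 * ((h : ℤ) * (d : ℤ) ^ 4 - (h' : ℤ) * (d' : ℤ) ^ 4) ∧
        |t - (b : ℝ) / (u : ℝ)| * (5 * |(h : ℝ) * (d : ℝ) ^ 4 - (h' : ℝ) * (d' : ℝ) ^ 4|) ≤
          1 / (K : ℝ) ^ 4} : ℝ) ≤ C

/-- HCw: the number of `(h, h', d, d')` in the case `c₁ W < K ^ 3` -/
def HcwStmt : Prop :=
  ∃ C₁ : ℝ, 0 < C₁ ∧ ∀ ε : ℝ, 0 < ε → ∃ C : ℝ, 0 < C ∧
    ∀ (N D K u H g : ℕ) (t : ℝ) (b : ℤ) (S : Finset ℕ), Par2w N D K u t b S →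
    C₁ * WW N u t b < (K : ℝ) ^ 3 → 1 ≤ g → g ≤ H → H ≤ N →
      (Nat.card {x : (ℕ × ℕ) × (ℕ × ℕ) // H < 2 * x.1.1 ∧ x.1.1 ≤ H ∧ H < 2 * x.1.2 ∧
        x.1.2 ≤ H ∧ Nat.gcd x.1.1 u = g ∧ Nat.gcd x.1.2 u = g ∧
        x.2.1 ∈ S ∧ x.2.2 ∈ S ∧ x.2.1 ≠ x.2.2 ∧
        ∃ r r' : ℤ, |r| ≤ (N : ℤ) ∧ |r'| ≤ (N : ℤ) ∧
          Close2 K t ((x.1.1, x.2.1, r), (x.1.2, x.2.2, r'))} : ℝ) ≤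
        C * (N : ℝ) ^ ε * ((g : ℝ) * (N : ℝ) / (H : ℝ)) ^ 2 * (WW N u t b * (D : ℝ))

/-- EAw: the pairs of a class with `d ≠ d'` -/
def EawStmt : Prop :=
  ∀ ε : ℝ, 0 < ε → ∃ C : ℝ, 0 < C ∧ ∀ (N D K u H g : ℕ) (t : ℝ) (b : ℤ) (S : Finset ℕ),
    Par2w N D K u t b S → 1 ≤ g → g ≤ H → H ≤ N →
      (Nat.card {v : (ℕ × ℕ × ℤ) × (ℕ × ℕ × ℤ) // v.1 ∈ Cls N H g u S ∧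
        v.2 ∈ Cls N H g u S ∧ Close2 K t v ∧ v.1.2.1 ≠ v.2.2.1} : ℝ) ≤
        C * (N : ℝ) ^ (2 + ε) * (D : ℝ) * ((g : ℝ) * (N : ℝ) / (H : ℝ)) ^ 3

/-- ECw: the energy of a class -/
def EcwStmt : Prop :=
  ∀ ε : ℝ, 0 < ε → ∃ C : ℝ, 0 < C ∧ ∀ (N D K u H g : ℕ) (t : ℝ) (b : ℤ) (S : Finset ℕ),
    Par2w N D K u t b S → 1 ≤ g → g ≤ H → H ≤ N →
      (Nat.card {v : (ℕ × ℕ × ℤ) × (ℕ × ℕ × ℤ) // v.1 ∈ Cls N H g u S ∧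
        v.2 ∈ Cls N H g u S ∧ Close2 K t v} : ℝ) ≤
        C * (N : ℝ) ^ (2 + ε) * (D : ℝ) * ((g : ℝ) * (N : ℝ) / (H : ℝ)) ^ 3

/-- BCw: the sum over one class -/
def BcwStmt : Prop :=
  ∀ ε : ℝ, 0 < ε → ∃ C : ℝ, 0 < C ∧ ∀ (N D K u H g : ℕ) (t : ℝ) (b : ℤ) (S : Finset ℕ)
    (lo hi : ℕ × ℕ × ℤ → ℕ), (∀ p, 1 ≤ lo p) → (∀ p, hi p ≤ K) →
    Par2w N D K u t b S → 1 ≤ g → g ≤ H → H ≤ N →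
      (∑ p ∈ Cls N H g u S, ‖∑ m ∈ Finset.Icc (lo p) (hi p),
        ee (∑ j : Fin 4, t * (co2 j p : ℝ) * (m : ℝ) ^ ((j : ℕ) + 1))‖) ^ 20 ≤
        C * (K : ℝ) ^ 20 * (N : ℝ) ^ (38 + ε) * (S.card : ℝ) ^ 18 * (D : ℝ)

/-- B2w: the bound of part II -/
def B2wStmt : Prop :=
  ∀ ε : ℝ, 0 < ε → ∃ C : ℝ, 0 < C ∧ ∀ (N D K u : ℕ) (t ξ : ℝ) (b : ℤ) (S : Finset ℕ),
    Par2w N D K u t b S → (D : ℝ) ^ (1 - ε) ≤ (S.card : ℝ) →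
      ‖WS t ξ N‖ ^ 40 ≤ C * (N : ℝ) ^ (38 + 4 * ε) / (D : ℝ)

/-- WF5: `t` far from rational numbers with small denominators -/
def Wf5Stmt : Prop :=
  ∃ C : ℝ, 0 < C ∧ ∀ (N : ℕ) (t ξ : ℝ), 1 ≤ N → VM.Far 5 N t →
    ‖WS t ξ N‖ ≤ C * (N : ℝ) ^ ((937 : ℝ) / 1000)

/-- the full form of the bound, for all `q` (general degree) -/
def FfaStmt (k : ℕ) (σ : ℝ) : Prop :=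
  ∀ ε : ℝ, 0 < ε → ∃ C : ℝ, 0 < C ∧ ∀ (N q : ℕ) (a : ℤ) (t ξ : ℝ), 1 ≤ N → 1 ≤ q →
    Int.gcd a q = 1 → |t - (a : ℝ) / (q : ℝ)| ≤ 1 / (q : ℝ) ^ 2 →
    ‖W k N t ξ‖ ≤ C * (N : ℝ) ^ (1 + ε) *
      ((1 / (q : ℝ) + (q : ℝ) / (N : ℝ) ^ k) ^ (1 / (k : ℝ)) + (1 / (N : ℝ)) ^ σ)

end Pool.Agent.VM5
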